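import Pool.Agent.Y323.EF.Grid

set_option autoImplicit false

/-!
# The finite field distance conjecture (with constants) fails in every even dimension

For every even `d ≥ 2`, all `C` and `c > 0` there are arbitrarily large primes `p` and sets
`E ⊆ 𝔽_p ^ d` with `|E| ≥ C p ^ (d / 2)` and fewer than `c p` distances: the sum of a grid in
isotropic coordinates of a plane and a totally isotropic subspace of dimension `(d - 2) / 2`.
-/

open Finset

namespace Pool.Agent.Results.MP_53cd62_co.EveryEvenDimension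

open Pool.Agent.Y323.EF

/-- the number of the distances `∑ (x_k - y_k)²` between points of `E` -/
noncomputable def numDist {F : Type} [Field F] [DecidableEq F] {d : ℕ} (E : Finset (Fin d → F)) : ℕ :=
  ((E ×ˢ E).image (fun s => ∑ k, (s.1 k - s.2 k) ^ 2)).card

/-- the point `(P, u, i u)` -/
def ext {F : Type} [Field F] (i : F) {j : ℕ} (P : Fin 2 → F) (u : Fin j → F) : Fin (2 + (j + j)) → F :=
  Fin.append P (Fin.append u (fun k => i * u k))

theorem ext_dist {F : Type} [Field F] (i : F) (hi : i ^ 2 = -1) {j : ℕ} (P P' : Fin 2 → F)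
    (u u' : Fin j → F) :
    ∑ k, (ext i P u k - ext i P' u' k) ^ 2 = ∑ k, (P k - P' k) ^ 2 := by
  unfold ext
  rw [Fin.sum_univ_add, Fin.sum_univ_add]
  simp only [Fin.append_left, Fin.append_right]
  rw [← Finset.sum_add_distrib]
  have h0 : ∑ k : Fin j, ((u k - u' k) ^ 2 + (i * u k - i * u' k) ^ 2) = 0 := by
    apply Finset.sum_eq_zero
    intro k _
    linear_combination (u k - u' k) ^ 2 * hi
  rw [h0, add_zero]

theorem ext_inj {F : Type} [Field F] (i : F) {j : ℕ} :
    Function.Injective (fun s : (Fin 2 → F) × (Fin j → F) => ext i s.1 s.2) := by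
  rintro ⟨P, u⟩ ⟨P', u'⟩ h
  have h' : Fin.append P (Fin.append u (fun k => i * u k)) =
    Fin.append P' (Fin.append u' (fun k => i * u' k)) := h
  have e1 : P = P' := by
    funext k
    have := congrFun h' (Fin.castAdd (j + j) k)
    simpa only [Fin.append_left] using this
  have e2 : u = u' := by
    funext k
    have := congrFun h' (Fin.natAdd 2 (Fin.castAdd j k))
    simpa only [Fin.append_left, Fin.append_right] using this
  rw [e1, e2]

/-- **The distance conjecture with constants fails in every even dimension, for arbitrarily large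
primes.** -/
theorem result (d : ℕ) (hd : Even d) (hd2 : 2 ≤ d) (C c : ℝ) (hc : 0 < c) (N : ℕ) :
    ∃ (p : ℕ) (_ : Fact p.Prime), N < p ∧ p ≠ 2 ∧ ∃ E : Finset (Fin d → ZMod p),
      C * (p : ℝ) ^ (d / 2) ≤ (E.card : ℝ) ∧ (numDist E : ℝ) < c * (p : ℝ) := by
  classical
  obtain ⟨e, he⟩ := hd
  obtain ⟨j, rfl⟩ : ∃ j, d = 2 + (j + j) := ⟨e - 1, by omega⟩
  obtain ⟨p, n, hp, i, hmp, h2, hi, hnp, h3, h4⟩ := plane C c hc (max N 2)
  refine ⟨p, hp, lt_of_le_of_lt (le_max_left _ _) hmp, ?_,
    ((grid i n) ×ˢ (Finset.univ : Finset (Fin j → ZMod p))).image (fun s => ext i s.1 s.2), ?_, ?_⟩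
  · have := lt_of_le_of_lt (le_max_right N 2) hmp
    omega
  · rw [Finset.card_image_of_injective _ (ext_inj i), Finset.card_product, Finset.card_univ,
      Fintype.card_fun, ZMod.card, Fintype.card_fin]
    have e1 : (2 + (j + j)) / 2 = 1 + j := by omega
    rw [e1, pow_add, pow_one]
    push_cast
    have hpp : (0 : ℝ) ≤ (p : ℝ) ^ j := by positivity
    calc C * ((p : ℝ) * (p : ℝ) ^ j) = (C * (p : ℝ)) * (p : ℝ) ^ j := by ring
      _ ≤ _ := mul_le_mul_of_nonneg_right h3 hpp
  · refine lt_of_le_of_lt ?_ h4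
    unfold numDist
    have hsub : ((((grid i n) ×ˢ (Finset.univ : Finset (Fin j → ZMod p))).image
        (fun s => ext i s.1 s.2)) ×ˢ (((grid i n) ×ˢ (Finset.univ : Finset (Fin j → ZMod p))).image
        (fun s => ext i s.1 s.2))).image (fun s => ∑ k, (s.1 k - s.2 k) ^ 2) ⊆
        ((grid i n) ×ˢ (grid i n)).image (fun s => ∑ k, (s.1 k - s.2 k) ^ 2) := by
      intro x hx
      rw [Finset.mem_image] at hx
      obtain ⟨⟨X, Y⟩, hXY, rfl⟩ := hx
      rw [Finset.mem_product] at hXY
      obtain ⟨hX, hY⟩ := hXY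
      rw [Finset.mem_image] at hX hY
      obtain ⟨⟨P, u⟩, hP, rfl⟩ := hX
      obtain ⟨⟨P', u'⟩, hP', rfl⟩ := hY
      rw [Finset.mem_product] at hP hP'
      rw [Finset.mem_image]
      exact ⟨(P, P'), Finset.mem_product.mpr ⟨hP.1, hP'.1⟩, (ext_dist i hi P P' u u').symm⟩
    exact_mod_cast Finset.card_le_card hsub

end Pool.Agent.Results.MP_53cd62_co.EveryEvenDimension
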